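import Mathlib

set_option autoImplicit false

open Set Filter Topology Metric MeasureTheory

namespace Pool.Agent.H369R3.UT

/-- complex n-space with its Hermitian norm -/
abbrev Cn (n : ℕ) : Type := EuclideanSpace ℂ (Fin n)

/-- The point z + e^{iθ} w on the boundary circle of the complex disc z + D w. -/
noncomputable def circ {n : ℕ} (z w : Cn n) (θ : ℝ) : Cn n :=
  z + Complex.exp ((θ : ℂ) * Complex.I) • w

/-- Plurisubharmonic functions on an open set Ω, with values in [-∞, ∞).  The function is upper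
semicontinuous on Ω and, for every closed complex disc {z + ζ w, |ζ| ≤ 1} contained in Ω, the
value at the centre z is at most the mean over the boundary circle.  The mean of an upper
semicontinuous function is the infimum of the means of its continuous majorants. -/
def IsPSH {n : ℕ} (Ω : Set (Cn n)) (φ : Cn n → EReal) : Prop :=
  (∀ z ∈ Ω, φ z ≠ ⊤) ∧ UpperSemicontinuousOn φ Ω ∧
  ∀ z w : Cn n, (∀ ζ : ℂ, ‖ζ‖ ≤ 1 → z + ζ • w ∈ Ω) →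
    ∀ h : ℝ → ℝ, Continuous h → (∀ θ ∈ Icc 0 (2 * Real.pi), φ (circ z w θ) ≤ (h θ : EReal)) →
      φ z ≤ (((2 * Real.pi)⁻¹ * ∫ θ in (0 : ℝ)..(2 * Real.pi), h θ : ℝ) : EReal)

/-- A differential test from above for φ at z: a function q of class C^2 on an open neighbourhood
V ⊆ Ω of z with (φ - q)(z) = sup over V of (φ - q). -/
def HasUpperTest {n : ℕ} (Ω : Set (Cn n)) (φ : Cn n → EReal) (z : Cn n) : Prop :=
  ∃ (V : Set (Cn n)) (q : Cn n → ℝ), IsOpen V ∧ V ⊆ Ω ∧ z ∈ V ∧ ContDiffOn ℝ 2 q V ∧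
    ∀ y ∈ V, φ y - (q y : EReal) ≤ φ z - (q z : EReal)

/-- The exceptional set E(φ). -/
def exceptional {n : ℕ} (Ω : Set (Cn n)) (φ : Cn n → EReal) : Set (Cn n) :=
  {z | z ∈ Ω ∧ ¬ HasUpperTest Ω φ z}

/-- real truncation -/
noncomputable def trunc {n : ℕ} (φ : Cn n → EReal) (k : ℕ) (x : Cn n) : ℝ :=
  (max (φ x) ((-(k : ℝ) : ℝ) : EReal)).toReal

/-- real valued plurisubharmonic function bounded below by -k -/
def RPSH {n : ℕ} (Ω : Set (Cn n)) (k : ℝ) (u : Cn n → ℝ) : Prop :=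
  UpperSemicontinuousOn u Ω ∧ (∀ x ∈ Ω, -k ≤ u x) ∧
  ∀ z w : Cn n, (∀ ζ : ℂ, ‖ζ‖ ≤ 1 → z + ζ • w ∈ Ω) →
    u z ≤ (2 * Real.pi)⁻¹ * ∫ θ in (0 : ℝ)..(2 * Real.pi), u (circ z w θ)

/-- radial kernel, positive exactly on the open ball of radius r -/
noncomputable def kern {n : ℕ} (r : ℝ) (w : Cn n) : ℝ := Real.smoothTransition (1 - ‖w‖ ^ 2 / r ^ 2)

/-- normalised smoothing -/
noncomputable def moll {n : ℕ} (μ : Measure (Cn n)) (r : ℝ) (v : Cn n → ℝ) (z : Cn n) : ℝ :=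
  (∫ w, kern r w ∂μ)⁻¹ * ∫ w, kern r w * v (z + w) ∂μ

/-- contact points of paraboloids of opening M from above, vertices in the closed ball -/
def contact {n : ℕ} (f : Cn n → ℝ) (a : Cn n) (R M : ℝ) : Set (Cn n) :=
  {x | x ∈ closedBall a R ∧ ∃ y ∈ closedBall a R, ∀ z ∈ closedBall a R,
    f z - M / 2 * ‖z - y‖ ^ 2 ≤ f x - M / 2 * ‖x - y‖ ^ 2}

/-- gradient -/
noncomputable def grad {n : ℕ} (f : Cn n → ℝ) (x : Cn n) : Cn n :=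
  (InnerProductSpace.toDual ℝ (Cn n)).symm (fderiv ℝ f x)

/-- the map from contact points to vertices -/
noncomputable def vert {n : ℕ} (f : Cn n → ℝ) (M : ℝ) (x : Cn n) : Cn n :=
  x - M⁻¹ • grad f x

/-- A1: usc functions are limits of continuous majorants (use sup-convolution) -/
def TaskA1 : Prop := ∀ (v : ℝ → ℝ) (c L : ℝ), UpperSemicontinuousOn v (Icc 0 (2 * Real.pi)) →
  (∀ θ ∈ Icc 0 (2 * Real.pi), L ≤ v θ) →
  (∀ h : ℝ → ℝ, Continuous h → (∀ θ ∈ Icc 0 (2 * Real.pi), v θ ≤ h θ) →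
    c ≤ (2 * Real.pi)⁻¹ * ∫ θ in (0 : ℝ)..(2 * Real.pi), h θ) →
  c ≤ (2 * Real.pi)⁻¹ * ∫ θ in (0 : ℝ)..(2 * Real.pi), v θ

/-- A2: truncations are RPSH -/
def TaskA2 : Prop := TaskA1 → ∀ (n : ℕ) (Ω : Set (Cn n)) (φ : Cn n → EReal), IsPSH Ω φ →
  ∀ k : ℕ, RPSH Ω k (trunc φ k)

/-- C: smoothness of the mollification -/
def TaskC : Prop := ∀ (n : ℕ) (μ : Measure (Cn n)) [μ.IsAddHaarMeasure] (r : ℝ) (v : Cn n → ℝ),
  0 < r → Integrable v μ → ContDiff ℝ 3 (moll μ r v)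

/-- M: integrability and boundedness on closed balls -/
def TaskM : Prop := ∀ (n : ℕ) (μ : Measure (Cn n)) [μ.IsAddHaarMeasure] (Ω : Set (Cn n)) (k : ℝ)
  (u : Cn n → ℝ) (a : Cn n) (R : ℝ), RPSH Ω k u → closedBall a R ⊆ Ω →
  Measurable ((closedBall a R).indicator u) ∧
  Integrable ((closedBall a R).indicator u) μ ∧ ∃ C : ℝ, 0 ≤ C ∧ ∀ x ∈ closedBall a R, u x ≤ C

/-- D1: mollification dominates -/
def TaskD1 : Prop := TaskM → ∀ (n : ℕ) (μ : Measure (Cn n)) [μ.IsAddHaarMeasure] (Ω : Set (Cn n)) (k : ℝ)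
  (u : Cn n → ℝ) (a : Cn n) (R : ℝ), RPSH Ω k u → closedBall a R ⊆ Ω →
  ∀ (z : Cn n) (r : ℝ), 0 < r → closedBall z r ⊆ closedBall a R →
  u z ≤ moll μ r ((closedBall a R).indicator u) z

/-- D2: the mollification satisfies the sub-mean value inequality -/
def TaskD2 : Prop := TaskM → ∀ (n : ℕ) (μ : Measure (Cn n)) [μ.IsAddHaarMeasure] (Ω : Set (Cn n)) (k : ℝ)
  (u : Cn n → ℝ) (a : Cn n) (R : ℝ), RPSH Ω k u → closedBall a R ⊆ Ω →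
  ∀ (z w : Cn n) (r : ℝ), 0 < r → (∀ ζ : ℂ, ‖ζ‖ ≤ 1 → closedBall (z + ζ • w) r ⊆ closedBall a R) →
  moll μ r ((closedBall a R).indicator u) z ≤ (2 * Real.pi)⁻¹ *
    ∫ θ in (0 : ℝ)..(2 * Real.pi), moll μ r ((closedBall a R).indicator u) (circ z w θ)

/-- D3: bounds for the mollification -/
def TaskD3 : Prop := ∀ (n : ℕ) (μ : Measure (Cn n)) [μ.IsAddHaarMeasure] (v : Cn n → ℝ),
  Integrable v μ → ∀ (z : Cn n) (r c C : ℝ), 0 < r → (∀ x ∈ closedBall z r, c ≤ v x ∧ v x ≤ C) →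
  c ≤ moll μ r v z ∧ moll μ r v z ≤ C

/-- K0: the kernel: integral positive, rotation invariance -/
def TaskK0 : Prop := ∀ (n : ℕ) (μ : Measure (Cn n)) [μ.IsAddHaarMeasure] (r : ℝ), 0 < r →
  Continuous (kern (n := n) r) ∧ HasCompactSupport (kern (n := n) r) ∧
  ContDiff ℝ 3 (kern (n := n) r) ∧
  0 < ∫ w, kern (n := n) r w ∂μ ∧ (∀ w : Cn n, 0 ≤ kern r w) ∧
  (∀ w : Cn n, kern r w ≤ 1) ∧ (∀ w : Cn n, 0 < kern r w ↔ ‖w‖ < r) ∧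
  (∀ g : Cn n → ℝ, ∀ θ : ℝ, ∫ w, kern r w * g (Complex.exp ((θ : ℂ) * Complex.I) • w) ∂μ =
    ∫ w, kern r w * g w ∂μ)

/-- E: sub-mean value inequality gives nonnegative Laplacian on complex lines -/
def TaskE : Prop := ∀ (n : ℕ) (f : Cn n → ℝ) (z : Cn n) (s : ℝ), ContDiff ℝ 3 f → 0 < s →
  (∀ w : Cn n, ‖w‖ ≤ s → f z ≤ (2 * Real.pi)⁻¹ *
    ∫ θ in (0 : ℝ)..(2 * Real.pi), f (circ z w θ)) →
  ∀ w : Cn n, 0 ≤ fderiv ℝ (fderiv ℝ f) z w w +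
    fderiv ℝ (fderiv ℝ f) z (Complex.I • w) (Complex.I • w)

/-- G1: AM-GM for the determinant of a nonnegative symmetric real operator -/
def TaskG1 : Prop := ∀ (n : ℕ) (A : Cn n →L[ℝ] Cn n),
  (∀ v w : Cn n, inner ℝ (A v) w = inner ℝ v (A w)) → (∀ v : Cn n, 0 ≤ inner ℝ (A v) v) →
  LinearMap.trace ℝ (Cn n) (A : Cn n →ₗ[ℝ] Cn n) ≤ 2 * n → |A.det| ≤ 1

/-- G2: trace over complex lines -/
def TaskG2 : Prop := ∀ (n : ℕ) (A : Cn n →L[ℝ] Cn n),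
  (∀ w : Cn n, inner ℝ (A w) w + inner ℝ (A (Complex.I • w)) (Complex.I • w) ≤ 2 * ‖w‖ ^ 2) →
  LinearMap.trace ℝ (Cn n) (A : Cn n →ₗ[ℝ] Cn n) ≤ 2 * n

/-- H: first and second order conditions at a maximum -/
def TaskH : Prop := ∀ (n : ℕ) (f : Cn n → ℝ) (x y : Cn n) (M : ℝ), ContDiff ℝ 3 f →
  IsLocalMax (fun z => f z - M / 2 * ‖z - y‖ ^ 2) x →
  (∀ v : Cn n, fderiv ℝ f x v = M * inner ℝ (x - y) v) ∧
  (∀ v : Cn n, fderiv ℝ (fderiv ℝ f) x v v ≤ M * ‖v‖ ^ 2)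

/-- T: derivative of the vertex map -/
def TaskT : Prop := ∀ (n : ℕ) (f : Cn n → ℝ) (M : ℝ) (x : Cn n), ContDiff ℝ 3 f →
  ∃ A : Cn n →L[ℝ] Cn n, HasFDerivAt (vert f M) A x ∧
    (∀ v w : Cn n, inner ℝ (A v) w = inner ℝ v w - M⁻¹ * fderiv ℝ (fderiv ℝ f) x v w) ∧
    (∀ v w : Cn n, inner ℝ (A v) w = inner ℝ v (A w))

/-- I1: vertices are covered -/
def TaskI1 : Prop := TaskH → ∀ (n : ℕ) (f : Cn n → ℝ) (a : Cn n) (R M C δ : ℝ), ContDiff ℝ 3 f →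
  (∀ x ∈ closedBall a R, |f x| ≤ C) → 0 < M → 0 < δ → δ < R → 4 * C < M * δ ^ 2 →
  ball a (R - δ) ⊆ vert f M '' (contact f a R M ∩ ball a R)

/-- I2: the contact set is closed -/
def TaskI2 : Prop := ∀ (n : ℕ) (f : Cn n → ℝ) (a : Cn n) (R M : ℝ), Continuous f →
  IsClosed (contact f a R M)

/-- I3: area estimate -/
def TaskI3 : Prop := TaskG1 → TaskG2 → TaskH → TaskT → TaskI1 → TaskI2 →
  ∀ (n : ℕ) (μ : Measure (Cn n)) [μ.IsAddHaarMeasure] (f : Cn n → ℝ) (a : Cn n) (R M C δ : ℝ),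
  ContDiff ℝ 3 f → (∀ x ∈ closedBall a R, |f x| ≤ C) → 0 < M → 0 < δ → δ < R →
  4 * C < M * δ ^ 2 →
  (∀ x ∈ ball a R, ∀ w : Cn n, 0 ≤ fderiv ℝ (fderiv ℝ f) x w w +
    fderiv ℝ (fderiv ℝ f) x (Complex.I • w) (Complex.I • w)) →
  μ (ball a (R - δ)) ≤ μ (contact f a R M)

/-- J1: measure of the upper limit of sets -/
def TaskJ1 : Prop := ∀ (n : ℕ) (μ : Measure (Cn n)) [μ.IsAddHaarMeasure] (a : Cn n) (R : ℝ)
  (S : ℕ → Set (Cn n)) (m : ENNReal), (∀ k, S k ⊆ closedBall a R) → (∀ k, m ≤ μ (S k)) →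
  m ≤ μ (⋂ K : ℕ, closure (⋃ k : ℕ, ⋃ _ : K ≤ k, S k))

/-- J2: limits of contact points are contact points -/
def TaskJ2 : Prop := ∀ (n : ℕ) (u : Cn n → ℝ) (f : ℕ → Cn n → ℝ) (a : Cn n) (R M : ℝ), 0 < M →
  (∀ k, ∀ x ∈ closedBall a R, u x ≤ f k x) →
  (∀ x ∈ closedBall a R, ∀ c : ℝ, u x < c → ∃ K : ℕ, ∃ s : ℝ, 0 < s ∧ ∀ k, K ≤ k →
    ∀ z ∈ ball x s ∩ closedBall a R, f k z ≤ c) →
  (⋂ K : ℕ, closure (⋃ k : ℕ, ⋃ _ : K ≤ k, contact (f k) a R M)) ⊆ contact u a R M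

/-- N: the set where φ = -∞ is null near a point where φ is finite -/
def TaskN : Prop := TaskM → TaskD1 → TaskK0 → (∀ (n : ℕ) (Ω : Set (Cn n)) (φ : Cn n → EReal),
  IsPSH Ω φ → ∀ k : ℕ, RPSH Ω k (trunc φ k)) → ∀ (n : ℕ) (μ : Measure (Cn n)) [μ.IsAddHaarMeasure]
  (Ω : Set (Cn n)) (φ : Cn n → EReal) (a : Cn n) (r : ℝ), IsPSH Ω φ → φ a ≠ ⊥ → 0 < r →
  closedBall a r ⊆ Ω → μ (ball a r ∩ {x | φ x = ⊥}) = 0

/-- P: almost every point of a ball is a contact point -/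
def TaskP : Prop := TaskM → TaskD1 → TaskD2 → TaskD3 → TaskC → TaskE → TaskI3 → TaskJ1 → TaskJ2 →
  TaskG1 → TaskG2 → TaskH → TaskT → TaskI1 → TaskI2 →
  ∀ (n : ℕ) (μ : Measure (Cn n)) [μ.IsAddHaarMeasure] (Ω : Set (Cn n)) (k : ℝ) (u : Cn n → ℝ)
  (a : Cn n) (R R' : ℝ), RPSH Ω k u → 0 < R → R < R' → closedBall a R' ⊆ Ω →
  μ {x ∈ ball a R | ¬ ∃ M : ℝ, ∃ y : Cn n, ∀ z ∈ ball a R,
    u z - M / 2 * ‖z - y‖ ^ 2 ≤ u x - M / 2 * ‖x - y‖ ^ 2} = 0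

end Pool.Agent.H369R3.UT
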