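import Pool.Agent.H369R3.UT.Defs

set_option autoImplicit false

open Set Filter Topology Metric MeasureTheory

namespace Pool.Agent.H369R3.UT

theorem main_of (hA1 : TaskA1) (hA2 : TaskA2) (hC : TaskC) (hM : TaskM) (hD1 : TaskD1)
    (hD2 : TaskD2) (hD3 : TaskD3) (hK0 : TaskK0) (hE : TaskE) (hG1 : TaskG1) (hG2 : TaskG2)
    (hH : TaskH) (hT : TaskT) (hI1 : TaskI1) (hI2 : TaskI2) (hI3 : TaskI3) (hJ1 : TaskJ1)
    (hJ2 : TaskJ2) (hN : TaskN) (hP : TaskP) :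
    ∀ (n : ℕ) (μ : Measure (Cn n)) [μ.IsAddHaarMeasure] (Ω : Set (Cn n)) (φ : Cn n → EReal),
      IsOpen Ω → IsPSH Ω φ → μ (exceptional Ω φ) = 0 := by
  intro n μ _ Ω φ hΩ hφ
  have hN' := hN hM hD1 hK0 (fun n Ω φ h k => hA2 hA1 n Ω φ h k) n μ Ω φ
  have hP' := hP hM hD1 hD2 hD3 hC hE hI3 hJ1 hJ2 hG1 hG2 hH hT hI1 hI2 n μ Ω
  apply measure_null_of_locally_null
  intro x hx
  obtain ⟨ε, hε, hball⟩ := nhds_basis_closedBall.mem_iff.1 (hΩ.mem_nhds hx.1)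
  have hsub : ∀ t : ℝ, t ≤ ε → closedBall x t ⊆ Ω := fun t ht =>
    (closedBall_subset_closedBall ht).trans hball
  obtain ⟨y, hyx, hy⟩ : ∃ y ∈ ball x (ε / 4), φ y ≠ ⊥ := by
    by_contra hcon
    push Not at hcon
    apply hx.2
    refine ⟨ball x (ε / 4), fun _ => 0, isOpen_ball, ?_, mem_ball_self (by positivity),
      contDiffOn_const, ?_⟩
    · exact ball_subset_closedBall.trans (hsub _ (by linarith))
    · intro y hy
      rw [hcon y hy, hcon x (mem_ball_self (by positivity))]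
  have hyball : closedBall y (ε / 2) ⊆ Ω := by
    refine (closedBall_subset_closedBall' (ε₂ := ε) ?_).trans hball
    have : dist y x < ε / 4 := hyx
    linarith
  have hnull1 : μ (ball y (ε / 2) ∩ {x | φ x = ⊥}) = 0 := hN' y (ε / 2) hφ hy (by positivity) hyball
  have hnull2 : ∀ k : ℕ, μ {z ∈ ball x (ε / 4) | ¬ ∃ M : ℝ, ∃ y : Cn n, ∀ p ∈ ball x (ε / 4),
      trunc φ k p - M / 2 * ‖p - y‖ ^ 2 ≤ trunc φ k z - M / 2 * ‖z - y‖ ^ 2} = 0 := fun k =>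
    hP' k (trunc φ k) x (ε / 4) (ε / 2) (hA2 hA1 n Ω φ hφ k) (by positivity) (by linarith)
      (hsub _ (by linarith))
  refine ⟨exceptional Ω φ ∩ ball x (ε / 4), inter_mem self_mem_nhdsWithin
    (mem_nhdsWithin_of_mem_nhds (ball_mem_nhds x (by positivity))), ?_⟩
  refine measure_mono_null (t := (ball y (ε / 2) ∩ {x | φ x = ⊥}) ∪ ⋃ k : ℕ,
    {z ∈ ball x (ε / 4) | ¬ ∃ M : ℝ, ∃ y : Cn n, ∀ p ∈ ball x (ε / 4),
      trunc φ k p - M / 2 * ‖p - y‖ ^ 2 ≤ trunc φ k z - M / 2 * ‖z - y‖ ^ 2}) ?_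
    (measure_union_null hnull1 (measure_iUnion_null hnull2))
  rintro z ⟨hzE, hzB⟩
  by_cases hz : φ z = ⊥
  · left
    refine ⟨?_, hz⟩
    have h1 : dist z x < ε / 4 := hzB
    have h2 : dist y x < ε / 4 := hyx
    rw [dist_comm] at h2
    have := dist_triangle z x y
    rw [mem_ball]; linarith
  · right
    by_contra hcon
    apply hzE.2
    have hztop : φ z ≠ ⊤ := hφ.1 z hzE.1
    obtain ⟨c, hc⟩ : ∃ c : ℝ, φ z = (c : EReal) := ⟨(φ z).toReal, (EReal.coe_toReal hztop hz).symm⟩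
    obtain ⟨k, hk⟩ := exists_nat_gt (-c)
    have hnot : z ∉ {z ∈ ball x (ε / 4) | ¬ ∃ M : ℝ, ∃ y : Cn n, ∀ p ∈ ball x (ε / 4),
      trunc φ k p - M / 2 * ‖p - y‖ ^ 2 ≤ trunc φ k z - M / 2 * ‖z - y‖ ^ 2} :=
      fun h => hcon (mem_iUnion.2 ⟨k, h⟩)
    have hex : ∃ M : ℝ, ∃ y : Cn n, ∀ p ∈ ball x (ε / 4),
      trunc φ k p - M / 2 * ‖p - y‖ ^ 2 ≤ trunc φ k z - M / 2 * ‖z - y‖ ^ 2 := by
      by_contra h
      exact hnot ⟨hzB, h⟩
    obtain ⟨M, q, hq⟩ := hex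
    have htz : trunc φ k z = c := by
      unfold trunc
      rw [hc, max_eq_left (EReal.coe_le_coe_iff.2 (by linarith)), EReal.toReal_coe]
    refine ⟨ball x (ε / 4), fun p => M / 2 * ‖p - q‖ ^ 2, isOpen_ball,
      ball_subset_closedBall.trans (hsub _ (by linarith)), hzB, ?_, ?_⟩
    · apply ContDiff.contDiffOn
      exact contDiff_const.mul ((contDiff_id.sub contDiff_const).norm_sq ℝ)
    · intro p hp
      have hpΩ : p ∈ Ω := (ball_subset_closedBall.trans (hsub _ (by linarith : ε / 4 ≤ ε))) hp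
      have hptop : φ p ≠ ⊤ := hφ.1 p hpΩ
      have hle : φ p ≤ (trunc φ k p : EReal) := by
        unfold trunc
        rw [EReal.coe_toReal]
        · exact le_max_left _ _
        · intro h
          rcases max_choice (φ p) ((-(k : ℝ) : ℝ) : EReal) with h' | h'
          · rw [h'] at h; exact hptop h
          · rw [h'] at h; exact EReal.coe_ne_top _ h
        · intro h
          have : ((-(k : ℝ) : ℝ) : EReal) ≤ ⊥ := h ▸ le_max_right _ _
          exact EReal.coe_ne_bot _ (le_bot_iff.1 this)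
      calc φ p - ((M / 2 * ‖p - q‖ ^ 2 : ℝ) : EReal)
          ≤ (trunc φ k p : EReal) - ((M / 2 * ‖p - q‖ ^ 2 : ℝ) : EReal) :=
            EReal.sub_le_sub hle le_rfl
        _ = ((trunc φ k p - M / 2 * ‖p - q‖ ^ 2 : ℝ) : EReal) := (EReal.coe_sub _ _).symm
        _ ≤ ((trunc φ k z - M / 2 * ‖z - q‖ ^ 2 : ℝ) : EReal) := EReal.coe_le_coe_iff.2 (hq p hp)
        _ = φ z - ((M / 2 * ‖z - q‖ ^ 2 : ℝ) : EReal) := by rw [htz, EReal.coe_sub, hc]

end Pool.Agent.H369R3.UT
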