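import Pool.Agent.H369R3.UT.Defs

set_option autoImplicit false

open Set Filter Topology Metric MeasureTheory

namespace Pool.Agent.H369R3.UT

theorem taskP : TaskP := by
  intro hM hD1 hD2 hD3 hC hE hI3 hJ1 hJ2 hG1 hG2 hH hT hI1 hI2 n μ _ Ω k u a R R' hu hR hRR' hΩ
  obtain ⟨hmeas, hint, C₀, hC₀, hub⟩ := hM n μ Ω k u a R' hu hΩ
  obtain ⟨C, hCdef⟩ : ∃ C : ℝ, C = max C₀ (max k 0) := ⟨_, rfl⟩
  have hC1 : C₀ ≤ C := by rw [hCdef]; exact le_max_left _ _
  have hC2 : k ≤ C := by rw [hCdef]; exact (le_max_left _ _).trans (le_max_right _ _)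
  have hC3 : 0 ≤ C := by rw [hCdef]; exact (le_max_right _ _).trans (le_max_right _ _)
  obtain ⟨ρ, hρd⟩ : ∃ ρ : ℝ, ρ = R' - R := ⟨_, rfl⟩
  have hρ : 0 < ρ := by rw [hρd]; linarith
  obtain ⟨r, hr⟩ : ∃ r : ℕ → ℝ, r = fun j : ℕ => ρ / (2 * ((j : ℝ) + 1)) := ⟨_, rfl⟩
  have hr0 : ∀ j, 0 < r j := by intro j; rw [hr]; positivity
  have hrle : ∀ j, r j ≤ ρ / 2 := by
    intro j
    rw [hr]
    apply div_le_div_of_nonneg_left hρ.le (by norm_num)
    have : (0 : ℝ) ≤ j := Nat.cast_nonneg j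
    linarith
  have hrlim : ∀ t : ℝ, 0 < t → ∃ K : ℕ, ∀ j, K ≤ j → r j < t := by
    intro t ht
    obtain ⟨K, hK⟩ := exists_nat_gt (ρ / t)
    refine ⟨K, fun j hj => ?_⟩
    rw [hr]
    have h1 : (K : ℝ) ≤ j := by exact_mod_cast hj
    have h2 : 0 < 2 * ((j : ℝ) + 1) := by positivity
    simp only
    rw [div_lt_iff₀ h2]
    rw [div_lt_iff₀ ht] at hK
    nlinarith
  obtain ⟨f, hf⟩ : ∃ f : ℕ → Cn n → ℝ, f = fun j => moll μ (r j) ((closedBall a R').indicator u) :=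
    ⟨_, rfl⟩
  have hfj : ∀ j, f j = moll μ (r j) ((closedBall a R').indicator u) := by
    intro j; rw [hf]
  have hsmooth : ∀ j, ContDiff ℝ 3 (f j) := by
    intro j; rw [hfj]; exact hC n μ (r j) _ (hr0 j) hint
  have hvb : ∀ x ∈ closedBall a R', (closedBall a R').indicator u x = u x := by
    intro x hx; exact indicator_of_mem hx _
  have hballs : ∀ j, ∀ x ∈ closedBall a R, closedBall x (r j) ⊆ closedBall a R' := by
    intro j x hx
    apply closedBall_subset_closedBall'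
    have h1 := hrle j
    have h2 : dist x a ≤ R := hx
    linarith
  have hbd : ∀ j, ∀ x ∈ closedBall a R, |f j x| ≤ C := by
    intro j x hx
    have h := hD3 n μ _ hint x (r j) (-k) C₀ (hr0 j) (by
      intro y hy
      have hy' := hballs j x hx hy
      rw [hvb y hy']
      exact ⟨hu.2.1 y (hΩ hy'), hub y hy'⟩)
    rw [hfj, abs_le]
    exact ⟨by linarith [h.1], by linarith [h.2]⟩
  have hdom : ∀ j, ∀ x ∈ closedBall a R, u x ≤ f j x := by
    intro j x hx
    rw [hfj]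
    exact hD1 hM n μ Ω k u a R' hu hΩ x (r j) (hr0 j) (hballs j x hx)
  have hlap : ∀ j, ∀ x ∈ ball a R, ∀ w : Cn n, 0 ≤ fderiv ℝ (fderiv ℝ (f j)) x w w +
      fderiv ℝ (fderiv ℝ (f j)) x (Complex.I • w) (Complex.I • w) := by
    intro j x hx
    apply hE n (f j) x (ρ / 2) (hsmooth j) (by positivity)
    intro w hw
    rw [hfj]
    apply hD2 hM n μ Ω k u a R' hu hΩ x w (r j) (hr0 j)
    intro ζ hζ
    apply closedBall_subset_closedBall'
    have h1 := hrle j
    have h2 : dist x a < R := hx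
    have h3 : dist (x + ζ • w) a ≤ ‖ζ • w‖ + dist x a := by
      calc dist (x + ζ • w) a ≤ dist (x + ζ • w) x + dist x a := dist_triangle _ _ _
        _ = _ := by rw [dist_eq_norm, add_sub_cancel_left]
    have h4 : ‖ζ • w‖ ≤ ρ / 2 := by
      rw [norm_smul]
      calc ‖ζ‖ * ‖w‖ ≤ 1 * (ρ / 2) := by gcongr
        _ = ρ / 2 := one_mul _
    linarith
  have hlim : ∀ x ∈ closedBall a R, ∀ c : ℝ, u x < c → ∃ K : ℕ, ∃ s : ℝ, 0 < s ∧ ∀ j, K ≤ j →
      ∀ z ∈ ball x s ∩ closedBall a R, f j z ≤ c := by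
    intro x hx c hc
    have hxΩ : x ∈ Ω := hΩ (closedBall_subset_closedBall hRR'.le hx)
    have h1 := hu.1 x hxΩ c hc
    rw [Filter.Eventually, mem_nhdsWithin_iff] at h1
    obtain ⟨t, ht, hsub⟩ := h1
    obtain ⟨K, hK⟩ := hrlim (t / 2) (by positivity)
    refine ⟨K, t / 2, by positivity, fun j hj z hz => ?_⟩
    have hzR := hballs j z hz.2
    have h := hD3 n μ _ hint z (r j) (-k) c (hr0 j) (by
      intro y hy
      have hy' := hzR hy
      rw [hvb y hy']
      refine ⟨hu.2.1 y (hΩ hy'), ?_⟩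
      have : y ∈ ball x t := by
        have h2 : dist y z ≤ r j := hy
        have h3 : dist z x < t / 2 := hz.1
        have h4 := hK j hj
        have h5 := dist_triangle y z x
        rw [mem_ball]; linarith
      exact (hsub ⟨this, hΩ hy'⟩).le)
    rw [hfj]
    exact h.2
  set bad : Set (Cn n) := {x ∈ ball a R | ¬ ∃ M : ℝ, ∃ y : Cn n, ∀ z ∈ ball a R,
    u z - M / 2 * ‖z - y‖ ^ 2 ≤ u x - M / 2 * ‖x - y‖ ^ 2} with hbaddef
  have key : ∀ δ : ℝ, 0 < δ → δ < R → μ bad ≤ μ (closedBall a R) - μ (ball a (R - δ)) := by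
    intro δ hδ hδR
    obtain ⟨M, hMd⟩ : ∃ M : ℝ, M = (4 * C + 1) / δ ^ 2 := ⟨_, rfl⟩
    have hM0 : 0 < M := by rw [hMd]; positivity
    have hMδ : 4 * C < M * δ ^ 2 := by
      rw [hMd, div_mul_cancel₀ _ (by positivity)]; linarith
    have h1 : ∀ j, μ (ball a (R - δ)) ≤ μ (contact (f j) a R M) := fun j =>
      hI3 hG1 hG2 hH hT hI1 hI2 n μ (f j) a R M C δ (hsmooth j) (hbd j) hM0 hδ hδR hMδ (hlap j)
    have h2 := hJ1 n μ a R (fun j => contact (f j) a R M) (μ (ball a (R - δ)))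
      (fun j x hx => hx.1) h1
    have h3 := hJ2 n u f a R M hM0 hdom hlim
    set L : Set (Cn n) := ⋂ K : ℕ, closure (⋃ k : ℕ, ⋃ _ : K ≤ k, contact (f k) a R M) with hL
    have hLc : IsClosed L := isClosed_iInter fun _ => isClosed_closure
    have hLsub : L ⊆ closedBall a R := fun x hx => (h3 hx).1
    have hbad : bad ⊆ closedBall a R \ L := by
      intro x hx
      refine ⟨ball_subset_closedBall hx.1, fun hxL => hx.2 ?_⟩
      obtain ⟨-, y, -, hy⟩ := h3 hxL
      exact ⟨M, y, fun z hz => hy z (ball_subset_closedBall hz)⟩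
    calc μ bad ≤ μ (closedBall a R \ L) := measure_mono hbad
      _ = μ (closedBall a R) - μ L := measure_sdiff hLsub hLc.measurableSet.nullMeasurableSet
          (ne_top_of_le_ne_top measure_closedBall_lt_top.ne (measure_mono hLsub))
      _ ≤ μ (closedBall a R) - μ (ball a (R - δ)) := tsub_le_tsub_left h2 _
  -- the limit δ → 0
  have hfin : μ (ball (0 : Cn n) 1) ≠ ⊤ := measure_ball_lt_top.ne
  have key2 : ∀ δ : ℝ, 0 < δ → δ < R → μ bad ≤
      ENNReal.ofReal (R ^ Module.finrank ℝ (Cn n) - (R - δ) ^ Module.finrank ℝ (Cn n)) *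
        μ (ball (0 : Cn n) 1) := by
    intro δ hδ hδR
    refine (key δ hδ hδR).trans (le_of_eq ?_)
    rw [Measure.addHaar_closedBall μ a hR.le, Measure.addHaar_ball_of_pos μ a (by linarith),
      ENNReal.ofReal_sub _ (by have : 0 < R - δ := by linarith
                               positivity), ENNReal.sub_mul (fun _ _ => hfin)]
  have hcont : Tendsto (fun δ : ℝ => ENNReal.ofReal (R ^ Module.finrank ℝ (Cn n) -
      (R - δ) ^ Module.finrank ℝ (Cn n)) * μ (ball (0 : Cn n) 1)) (𝓝[>] 0) (𝓝 0) := by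
    have h1 : Tendsto (fun δ : ℝ => R ^ Module.finrank ℝ (Cn n) -
      (R - δ) ^ Module.finrank ℝ (Cn n)) (𝓝[>] 0) (𝓝 0) := by
      have hc : Continuous (fun δ : ℝ => R ^ Module.finrank ℝ (Cn n) -
        (R - δ) ^ Module.finrank ℝ (Cn n)) := by fun_prop
      have := (hc.tendsto 0).mono_left (nhdsWithin_le_nhds (s := Ioi (0 : ℝ)))
      simpa using this
    have h2 := ENNReal.Tendsto.mul_const (ENNReal.tendsto_ofReal h1) (Or.inr hfin)
    simpa using h2
  refine le_antisymm (ge_of_tendsto hcont ?_) bot_le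
  have h1 : ∀ᶠ δ : ℝ in 𝓝[>] 0, δ < R :=
    (Iio_mem_nhds hR |> mem_nhdsWithin_of_mem_nhds)
  filter_upwards [h1, self_mem_nhdsWithin] with δ hδ1 hδ2
  exact key2 δ hδ2 hδ1

end Pool.Agent.H369R3.UT
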