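import Pool.Agent.H369R3.UT.Defs
import Pool.Agent.H369R3.UT.P
import Pool.Agent.H369R3.UT.Main
import Pool.Agent.H715R3.UT_A1
import Pool.Agent.H151.UT_A2
import Pool.Agent.H554R3.UT_C
import Pool.Agent.H357R3.UT_M
import Pool.Agent.H492R3.UT_D1
import Pool.Agent.H936R3.UT_D2
import Pool.Agent.H994R4.UT_D3
import Pool.Agent.H265R3.UT_K0
import Pool.Agent.H802R3.UT.UT_E
import Pool.Agent.H377R4.UT_G1
import Pool.Agent.H86R4.UT_G2
import Pool.Agent.H884R4.UT_H
import Pool.Agent.H744R3.UT_T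
import Pool.Agent.H915R3.UT_I1
import Pool.Agent.H699.UT_I2
import Pool.Agent.H146R3.UT.UT_I3
import Pool.Agent.H789R5.UT_J1
import Pool.Agent.H115R3.UT_J2
import Pool.Agent.H54.UT_N

set_option autoImplicit false

open Set Filter Topology Metric MeasureTheory

namespace Pool.Agent.H369R3.UT.Final

open Pool.Agent.H369R3.UT

/-- For every open set Ω in complex n-space and every plurisubharmonic function φ on Ω, the set
E(φ) of points of Ω at which φ has no differential test from above is Lebesgue null. -/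
theorem final : ∀ (n : ℕ) (μ : Measure (Cn n)) [μ.IsAddHaarMeasure] (Ω : Set (Cn n))
    (φ : Cn n → EReal), IsOpen Ω → IsPSH Ω φ → μ (exceptional Ω φ) = 0 :=
  main_of Pool.Agent.H715R3.UTA1.taskA1 Pool.Agent.H151.UT.taskA2 Pool.Agent.H554R3.UTC.taskC
    Pool.Agent.H357R3.UTM.taskM Pool.Agent.H369R3.UT.taskD1 H936R3.UT.taskD2 Pool.Agent.H994R4.UT.taskD3
    Pool.Agent.H265R3.UTK0.taskK0 Pool.Agent.H369R3.UT.taskE Pool.Agent.H377R4.UT.taskG1
    Pool.Agent.H86R4.UT.taskG2 Pool.Agent.H884R4.UTH.taskH Pool.Agent.H744R3.UT.taskT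
    Pool.Agent.H915R3.UT.taskI1 Pool.Agent.H699.taskI2 Pool.Agent.H146R3.UT.taskI3 Pool.Agent.H789R5.taskJ1
    Pool.Agent.H115R3.UT_J2.taskJ2 Pool.Agent.H54.UT.taskN Pool.Agent.H369R3.UT.taskP

end Pool.Agent.H369R3.UT.Final
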